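import Pool.Agent.H43.TC.Targets2
import Pool.Agent.H43.TC.FIN

set_option autoImplicit false

namespace Pool.Agent.H17.TE

open Pool.Agent.H43.TC

theorem path_eq (m : ℕ) : ∀ (t : ℕ) (z : ℤ), 0 ≤ z → z ≤ m + 1 →
    walks (fun _ : Fin 1 => (1 : ℤ)) (fun y => decide (((y : ℤ) : ZMod (m + 1)) = 0)) false t z =
      walks (fun _ : Fin 1 => (1 : ℤ)) (fun z => decide (0 ≤ z ∧ z < m)) true t (z - 1) := by
  have hcol : ∀ z : ℤ, 0 ≤ z → z ≤ m + 1 →
      (decide (((z : ℤ) : ZMod (m + 1)) = 0) = false ↔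
        decide (0 ≤ z - 1 ∧ z - 1 < m) = true) := by
    intro z h0 h1
    rw [decide_eq_false_iff_not, decide_eq_true_iff, ZMod.intCast_zmod_eq_zero_iff_dvd]
    constructor
    · intro h
      constructor
      · by_contra h2
        have : z = 0 := by omega
        rw [this] at h
        exact h (dvd_zero _)
      · by_contra h2
        have : z = m + 1 := by omega
        rw [this] at h
        push_cast at h
        exact h dvd_rfl
    · rintro ⟨h2, h3⟩ h4
      have := Int.le_of_dvd (by omega) h4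
      push_cast at this
      omega
  intro t
  induction t with
  | zero =>
    intro z h0 h1
    have := hcol z h0 h1
    simp only [walks]
    by_cases h : decide (0 ≤ z - 1 ∧ z - 1 < m) = true
    · rw [if_pos (this.2 h), if_pos h]
    · rw [if_neg (fun h' => h (this.1 h')), if_neg h]
  | succ t ih =>
    intro z h0 h1
    have := hcol z h0 h1
    simp only [walks]
    by_cases h : decide (0 ≤ z - 1 ∧ z - 1 < m) = true
    · rw [if_pos (this.2 h), if_pos h]
      rw [decide_eq_true_iff] at h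
      refine Finset.sum_congr rfl fun i _ => ?_
      rw [ih (z + 1) (by omega) (by omega), ih (z - 1) (by omega) (by omega)]
      congr 2
      ring
    · rw [if_neg (fun h' => h (this.1 h')), if_neg h]

theorem walks_off {G : Type} [AddCommGroup G] {k : ℕ} (s : Fin k → G) (c : G → Bool) (b : Bool)
    (t : ℕ) (x : G) (h : c x ≠ b) : walks s c b t x = 0 := by
  cases t with
  | zero => exact if_neg h
  | succ t => exact if_neg h

theorem cpt : T_CPT := by
  intro t m ht hm
  have h1 : Function.Surjective (lin (fun _ : Fin 1 => (1 : ZMod (m + 1)))) := by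
    intro u
    refine ⟨fun _ => u, ?_⟩
    show ∑ i : Fin 1, (1 : ZMod (m + 1)) * u = u
    simp
  have hne : (1 : ZMod (m + 1)) ≠ 0 := by
    have : Fact (1 < m + 1) := ⟨by omega⟩
    exact one_ne_zero
  have h2 : (Finset.univ.filter (fun u : ZMod (m + 1) => decide (u = 0) = true)).card = 1 := by
    rw [Finset.card_eq_one]
    refine ⟨0, ?_⟩
    ext u
    simp
  have h3 : ∑ u, walks (fun _ : Fin 1 => (1 : ZMod (m + 1))) (fun u => decide (u = 0)) true t u
      = 0 := by
    obtain ⟨s, rfl⟩ : ∃ s, t = s + 1 := ⟨t - 1, by omega⟩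
    refine Finset.sum_eq_zero fun u _ => ?_
    simp only [walks]
    by_cases hu : u = 0
    · subst hu
      rw [if_pos (by simp)]
      refine Finset.sum_eq_zero fun i _ => ?_
      rw [walks_off _ _ _ _ _ (by simpa using hne), walks_off _ _ _ _ _ (by simpa using hne),
        add_zero]
    · rw [if_neg (by simpa using hu)]
  have h4 : ∑ u, walks (fun _ : Fin 1 => (1 : ZMod (m + 1))) (fun u => decide (u = 0)) false t u
      = pathWalks m t := by
    have hh := Pool.Agent.H20.TC.hom ℤ (ZMod (m + 1)) 1 (fun _ => (1 : ℤ))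
      (Int.castAddHom (ZMod (m + 1))) (fun u => decide (u = 0)) false t
    have e1 : ∀ u : ZMod (m + 1), walks (fun _ : Fin 1 => (1 : ZMod (m + 1)))
        (fun u => decide (u = 0)) false t u =
        walks (fun _ : Fin 1 => (1 : ℤ)) (fun y => decide (((y : ℤ) : ZMod (m + 1)) = 0)) false t
          ((u.val : ℕ) : ℤ) := by
      intro u
      have h5 := hh ((u.val : ℕ) : ℤ)
      have h6 : (Int.castAddHom (ZMod (m + 1))) ((u.val : ℕ) : ℤ) = u := by
        show (((u.val : ℕ) : ℤ) : ZMod (m + 1)) = u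
        rw [Int.cast_natCast, ZMod.natCast_zmod_val]
      have h7 : (fun i : Fin 1 => (Int.castAddHom (ZMod (m + 1))) ((fun _ : Fin 1 => (1 : ℤ)) i)) =
          fun _ => 1 := by
        funext i
        show (((1 : ℤ)) : ZMod (m + 1)) = 1
        rw [Int.cast_one]
      rw [h6, h7] at h5
      exact h5.symm
    simp only [e1]
    have e2 : ∑ u : ZMod (m + 1), walks (fun _ : Fin 1 => (1 : ℤ))
        (fun y => decide (((y : ℤ) : ZMod (m + 1)) = 0)) false t ((u.val : ℕ) : ℤ) =
        ∑ z ∈ Finset.range (m + 1), walks (fun _ : Fin 1 => (1 : ℤ))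
          (fun y => decide (((y : ℤ) : ZMod (m + 1)) = 0)) false t (z : ℤ) :=
      Fin.sum_univ_eq_sum_range (fun z : ℕ => walks (fun _ : Fin 1 => (1 : ℤ))
        (fun y => decide (((y : ℤ) : ZMod (m + 1)) = 0)) false t (z : ℤ)) (m + 1)
    rw [e2, Finset.sum_range_succ', walks_off _ _ _ _ _ (by simp), add_zero]
    unfold pathWalks
    refine Finset.sum_congr rfl fun z hz => ?_
    rw [Finset.mem_range] at hz
    rw [path_eq m t _ (by positivity) (by push_cast; omega)]
    congr 1
    push_cast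
    ring
  have h5 := lin' 1 (m + 1) t 0 (fun _ => 1) h1 (fun u => decide (u = 0)) 1 0 (pathWalks m t) h2
    (by omega) (by omega) h3 h4
  have hmR : (0 : ℝ) < m := by exact_mod_cast hm
  have e : (((0 : ℕ) : ℝ) / (2 * (1 : ℕ) : ℝ) ^ t + ((m + 1 : ℕ) : ℝ) - 2 * ((1 : ℕ) : ℝ)) /
      (((m + 1 : ℕ) : ℝ) - ((1 : ℕ) : ℝ)) = 1 - 1 / m := by
    have e0 : (((m + 1 : ℕ) : ℝ) - ((1 : ℕ) : ℝ)) = m := by push_cast; ring
    rw [e0]
    push_cast
    rw [zero_div, zero_add, div_eq_iff hmR.ne']
    field_simp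
    ring
  have e' : ((pathWalks m t : ℝ) / (2 * (1 : ℕ) : ℝ) ^ t) / (((m + 1 : ℕ) : ℝ) - ((1 : ℕ) : ℝ)) =
      pathWalks m t / (m * 2 ^ t) := by
    have e0 : (((m + 1 : ℕ) : ℝ) - ((1 : ℕ) : ℝ)) = m := by push_cast; ring
    rw [e0, div_div, Nat.cast_one, mul_one, mul_comm (2 ^ t : ℝ)]
  rw [e, e'] at h5
  exact h5

end Pool.Agent.H17.TE
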