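import Pool.Agent.H43.TC.Targets2

set_option autoImplicit false

namespace Pool.Agent.H17.TE

open Pool.Agent.H43.TC Filter Topology

theorem plw (hBRG : T_BRG) (hEDG : T_EDG) : T_PLW := by
  intro k t x y hk ht hxy
  obtain ⟨n, c, -, hbal, hlim⟩ := hxy
  have hx : Tendsto (fun j => stay (c j) true t) atTop (𝓝 x) :=
    (continuous_fst.tendsto (x, y)).comp hlim
  have hy : Tendsto (fun j => stay (c j) false t) atTop (𝓝 y) :=
    (continuous_snd.tendsto (x, y)).comp hlim
  refine le_of_tendsto_of_tendsto (hx.pow t) hy (Eventually.of_forall fun j => ?_)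
  simp only
  set c' := c j with hc
  have hb : size c' true = size c' false := hbal j
  set M := size c' true with hM
  have hsum : size c' true + size c' false = Fintype.card (Tor k (n j + 3)) := by
    unfold size
    rw [← Finset.card_univ]
    have h1 := Finset.card_filter_add_card_filter_not (s := (Finset.univ : Finset (Tor k (n j + 3))))
      (fun x => c' x = true)
    rw [← h1]
    congr 2
    ext x
    simp
  have hcard : 0 < Fintype.card (Tor k (n j + 3)) := Fintype.card_pos
  have hMpos : 0 < M := by omega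
  obtain ⟨hE1, hE2⟩ := hEDG (Tor k (n j + 3)) k e c' (t - 1)
  have hsT : (Finset.univ.filter (fun x => c' x = true)).card = M := rfl
  have hsF : (Finset.univ.filter (fun x => c' x = false)).card = M := hb.symm
  rw [hsT, hsF] at hE1
  have hRB : ∑ x, walks e c' false 1 x = ∑ x, walks e c' true 1 x := by omega
  set R := ∑ x, walks e c' true 1 x with hR
  have h3 := hE2 true
  rw [Nat.sub_add_cancel ht] at h3
  have h4 := hBRG (Tor k (n j + 3)) k e c' false t ht
  rw [hRB, hsF] at h4
  have hstayT : stay c' true t = (total c' true t : ℝ) / ((M : ℝ) * (2 * k : ℝ) ^ t) := rfl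
  have hstayF : stay c' false t = (total c' false t : ℝ) / ((M : ℝ) * (2 * k : ℝ) ^ t) := by
    unfold stay
    rw [← hb]
  have htT : total c' true t = ∑ x, walks e c' true t x := rfl
  have htF : total c' false t = ∑ x, walks e c' false t x := rfl
  have hMR : (0 : ℝ) < M := by exact_mod_cast hMpos
  have hkR : (0 : ℝ) < 2 * k := by
    have : (0 : ℝ) < k := by exact_mod_cast hk
    linarith
  have h3R : (total c' true t : ℝ) ≤ (2 * k : ℝ) ^ (t - 1) * R := by
    rw [htT]
    exact_mod_cast h3
  have h4R : (R : ℝ) ^ t ≤ total c' false t * (M : ℝ) ^ (t - 1) := by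
    rw [htF]
    exact_mod_cast h4
  have hR0 : (0 : ℝ) ≤ R := Nat.cast_nonneg _
  obtain ⟨s, rfl⟩ : ∃ s, t = s + 1 := ⟨t - 1, by omega⟩
  simp only [Nat.add_sub_cancel] at h3R h4R
  have hA : stay c' true (s + 1) ≤ R / (M * (2 * k)) := by
    rw [hstayT, div_le_div_iff₀ (by positivity) (by positivity)]
    calc (total c' true (s + 1) : ℝ) * (M * (2 * k)) ≤ ((2 * k : ℝ) ^ s * R) * (M * (2 * k)) :=
          mul_le_mul_of_nonneg_right h3R (by positivity)
      _ = R * (M * (2 * k) ^ (s + 1)) := by ring
  have hB : (R / (M * (2 * k))) ^ (s + 1) ≤ stay c' false (s + 1) := by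
    rw [hstayF, div_pow, div_le_div_iff₀ (by positivity) (by positivity)]
    calc (R : ℝ) ^ (s + 1) * (M * (2 * k) ^ (s + 1)) ≤
          (total c' false (s + 1) * (M : ℝ) ^ s) * (M * (2 * k) ^ (s + 1)) :=
          mul_le_mul_of_nonneg_right h4R (by positivity)
      _ = total c' false (s + 1) * (M * (2 * k)) ^ (s + 1) := by ring
  have h0 : 0 ≤ stay c' true (s + 1) := by
    rw [hstayT]
    positivity
  exact (pow_le_pow_left₀ h0 hA _).trans hB

end Pool.Agent.H17.TE
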