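import Pool.Agent.H43.TC.Targets2

set_option autoImplicit false

namespace Pool.Agent.H17.TE

open Pool.Agent.H43.TC

section

variable {G : Type} [AddCommGroup G] (g : G) (c : G → Bool) (b : Bool)

theorem win_iff (p : ℕ × ℕ) (x : G) :
    (∀ j, j < p.1 + p.2 + 1 → c (x - p.1 • g + j • g) = b) ↔
      ∀ i : ℤ, -(p.1 : ℤ) ≤ i → i ≤ p.2 → c (x + i • g) = b := by
  constructor
  · intro h i h1 h2
    have h3 := h (i + p.1).toNat (by omega)
    have h4 : x - p.1 • g + (i + p.1).toNat • g = x + i • g := by
      have h5 : ((i + p.1).toNat : ℤ) = i + p.1 := by omega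
      rw [← natCast_zsmul g (i + p.1).toNat, h5, add_zsmul, natCast_zsmul]
      abel
    rw [h4] at h3
    exact h3
  · intro h j hj
    have h3 := h ((j : ℤ) - p.1) (by omega) (by omega)
    have h4 : x + ((j : ℤ) - p.1) • g = x - p.1 • g + j • g := by
      rw [sub_zsmul, natCast_zsmul, natCast_zsmul]
      abel
    rw [h4] at h3
    exact h3

theorem win_add (p : ℕ × ℕ) (x : G) :
    (∀ j, j < (p.1 - 1) + (p.2 + 1) + 1 → c (x - (p.1 - 1) • g + j • g) = b) ↔
      c x = b ∧ ∀ j, j < p.1 + p.2 + 1 → c (x + g - p.1 • g + j • g) = b := by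
  rw [win_iff g c b (p.1 - 1, p.2 + 1) x, win_iff g c b p (x + g)]
  have e : ∀ i : ℤ, x + g + i • g = x + (i + 1) • g := by
    intro i
    rw [add_zsmul, one_zsmul]
    abel
  constructor
  · intro h
    refine ⟨?_, fun i h1 h2 => ?_⟩
    · have := h 0 (by simp) (by positivity)
      rwa [zero_zsmul, add_zero] at this
    · rw [e]
      exact h (i + 1) (by simp only; omega) (by simp only; push_cast; omega)
  · rintro ⟨h0, h⟩ i h1 h2
    simp only at h1 h2
    push_cast at h2
    rcases eq_or_ne i 0 with hi | hi
    · rw [hi, zero_zsmul, add_zero]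
      exact h0
    · have := h (i - 1) (by omega) (by omega)
      rw [e, sub_add_cancel] at this
      exact this

theorem win_sub (p : ℕ × ℕ) (x : G) :
    (∀ j, j < (p.1 + 1) + (p.2 - 1) + 1 → c (x - (p.1 + 1) • g + j • g) = b) ↔
      c x = b ∧ ∀ j, j < p.1 + p.2 + 1 → c (x - g - p.1 • g + j • g) = b := by
  rw [win_iff g c b (p.1 + 1, p.2 - 1) x, win_iff g c b p (x - g)]
  have e : ∀ i : ℤ, x - g + i • g = x + (i - 1) • g := by
    intro i
    rw [sub_zsmul, one_zsmul]
    abel
  constructor
  · intro h
    refine ⟨?_, fun i h1 h2 => ?_⟩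
    · have := h 0 (by simp only; push_cast; omega) (by simp)
      rwa [zero_zsmul, add_zero] at this
    · rw [e]
      exact h (i - 1) (by simp only; push_cast; omega) (by simp only; omega)
  · rintro ⟨h0, h⟩ i h1 h2
    simp only at h1 h2
    push_cast at h1
    rcases eq_or_ne i 0 with hi | hi
    · rw [hi, zero_zsmul, add_zero]
      exact h0
    · have := h (i + 1) (by omega) (by omega)
      rw [e, add_sub_cancel_right] at this
      exact this

end

theorem wex : T_WEX := by
  classical
  intro G _ g c b t
  induction t with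
  | zero =>
    intro x
    simp only [walks, ex, List.map_cons, List.map_nil, List.sum_cons, List.sum_nil, add_zero]
    have : (∀ j, j < 0 + 1 → c (x - 0 • g + j • g) = b) ↔ c x = b := by
      constructor
      · intro h
        simpa using h 0 (by omega)
      · intro h j hj
        have : j = 0 := by omega
        subst this
        simpa using h
    by_cases h : c x = b
    · rw [if_pos h, if_pos (this.2 h)]
    · rw [if_neg h, if_neg (fun h' => h (this.1 h'))]
  | succ t ih =>
    intro x
    have hl : walks (fun _ : Fin 1 => g) c b (t + 1) x = if c x = b then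
        (walks (fun _ : Fin 1 => g) c b t (x + g) + walks (fun _ : Fin 1 => g) c b t (x - g))
        else 0 := by
      simp [walks]
    rw [hl, ih, ih]
    simp only [ex, List.map_append, List.map_map, List.sum_append]
    by_cases h : c x = b
    · rw [if_pos h]
      congr 1
      · congr 1
        apply List.map_congr_left
        intro p _
        simp only [Function.comp]
        have := win_add g c b p x
        by_cases h2 : ∀ j, j < p.1 + p.2 + 1 → c (x + g - p.1 • g + j • g) = b
        · rw [if_pos h2, if_pos (this.2 ⟨h, h2⟩)]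
        · rw [if_neg h2, if_neg (fun h' => h2 (this.1 h').2)]
      · congr 1
        apply List.map_congr_left
        intro p _
        simp only [Function.comp]
        have := win_sub g c b p x
        by_cases h2 : ∀ j, j < p.1 + p.2 + 1 → c (x - g - p.1 • g + j • g) = b
        · rw [if_pos h2, if_pos (this.2 ⟨h, h2⟩)]
        · rw [if_neg h2, if_neg (fun h' => h2 (this.1 h').2)]
    · rw [if_neg h]
      have e1 : ∀ L : List (ℕ × ℕ), (L.map ((fun p : ℕ × ℕ => if ∀ j, j < p.1 + p.2 + 1 →
          c (x - p.1 • g + j • g) = b then 1 else 0) ∘ fun p => (p.1 - 1, p.2 + 1))).sum = 0 := by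
        intro L
        apply List.sum_eq_zero
        intro y hy
        rw [List.mem_map] at hy
        obtain ⟨p, -, rfl⟩ := hy
        simp only [Function.comp]
        exact if_neg (fun h' => h ((win_add g c b p x).1 h').1)
      have e2 : ∀ L : List (ℕ × ℕ), (L.map ((fun p : ℕ × ℕ => if ∀ j, j < p.1 + p.2 + 1 →
          c (x - p.1 • g + j • g) = b then 1 else 0) ∘ fun p => (p.1 + 1, p.2 - 1))).sum = 0 := by
        intro L
        apply List.sum_eq_zero
        intro y hy
        rw [List.mem_map] at hy
        obtain ⟨p, -, rfl⟩ := hy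
        simp only [Function.comp]
        exact if_neg (fun h' => h ((win_sub g c b p x).1 h').1)
      rw [e1, e2]

end Pool.Agent.H17.TE
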